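import Mathlib
import Pool.Agent.W905.Rand

/-!
# After adding random reals the strong polarized relation fails at the dominating number

Let `P` be the forcing which adds random reals `r ξ`, `ξ ∈ Λ`. It preserves cardinals and the
dominating number. Consider the colouring `c (ξ, n) = r ξ n`. Let `A` be an uncountable set of
indices and let `B` be an infinite subset of `ω` in the extension. The set `B` belongs to the
extension by countably many of the coordinates, and for some `ξ ∈ A` the real `r ξ` is random over
it; so `r ξ` is not constant on `B`. So the strong polarized relation fails in the extension for all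
uncountable cardinals `κ ≤ |Λ|`, and in particular for `κ = 𝔡`, whatever holds in the ground model.
-/

set_option autoImplicit false

namespace Pool.Agent.Results.MP_95a70f_lc.RandomReals

open Cardinal Pool.Agent.Helper669.Forcing Pool.Agent.Helper669.Forcing2
  Pool.Agent.Helper669.Dom Pool.Agent.W905.Rand

/-- Let `|Λ| ≥ 𝔡`. Adding random reals indexed by `Λ` preserves cardinals, does not change the
dominating number `𝔡`, and forces that the strong polarized relation `(𝔡, ω) → (𝔡, ω)` fails (and
that it fails for each uncountable cardinal up to `|Λ|`). -/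
theorem result (Λ : Type) (hΛ : dNum ≤ #Λ) (p : RandomForcing Λ) :
    p ∈ CardinalsPreserved.{0, 0} (RandomForcing Λ) ∧
    p ∈ DominatingNumberIs (RandomForcing Λ) dNum ∧
    p ∈ fnot (Polarized (RandomForcing Λ) dNum.out ℕ) ∧
    ∀ K : Type, ℵ₀ < #K → #K ≤ #Λ → p ∈ fnot (Polarized (RandomForcing Λ) K ℕ) := by
  have key : ∀ K : Type, ℵ₀ < #K → #K ≤ #Λ → p ∈ fnot (Polarized (RandomForcing Λ) K ℕ) := by
    intro K h1 h2
    obtain ⟨j⟩ := h2
    refine not_polarized (fun hc => ?_) j p
    exact absurd (Cardinal.mk_le_aleph0_iff.2 hc) (not_le.2 h1)
  refine ⟨cardinalsPreserved p, dominatingNumberIs p, key _ ?_ ?_, key⟩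
  · rw [mk_out]; exact aleph0_lt_dNum
  · rw [mk_out]; exact hΛ

end Pool.Agent.Results.MP_95a70f_lc.RandomReals
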